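import Pool.Agent.Helper9.Asym

/-!
# Volumes of ideal tetrahedra: the tangent inequality
-/

namespace Pool.Agent.Helper11.Kash

open Finset MeasureTheory Filter Topology
open Pool.Agent.Helper9.Kashaev (sn HH HH_cont HH_zero logS logS_upper logS_lower logS_refl
  logS_last sn_one_bounds integrable_h sn_pos)

lemma HH_deriv {x : ℝ} (h0 : 0 < x) (h1 : x < Real.pi) :
    HasDerivAt HH (Real.log (2 * Real.sin x)) x := by
  have hs : 0 < Real.sin x := Real.sin_pos_of_pos_of_lt_pi h0 h1
  have h := intervalIntegral.integral_hasDerivAt_right (integrable_h 0 x)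
    (f := fun t => Real.log |2 * Real.sin t|) (b := x) ?_ ?_
  · rw [abs_of_pos (by positivity)] at h
    exact h
  · apply Measurable.stronglyMeasurable _ |>.stronglyMeasurableAtFilter
    fun_prop
  · apply ContinuousAt.log
    · fun_prop
    · positivity

lemma log_two_sin_integral (a b : ℝ) (ha : 0 ≤ a) (hb : b ≤ Real.pi) (hab : a ≤ b) :
    ∫ t in a..b, Real.log |2 * Real.sin t| =
      (b - a) * Real.log 2 + ∫ t in a..b, Real.log (Real.sin t) := by
  have h1 : ∫ t in a..b, Real.log |2 * Real.sin t| =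
      ∫ t in a..b, (Real.log 2 + Real.log (Real.sin t)) := by
    apply intervalIntegral.integral_congr_ae
    have h3 : ∀ᵐ t : ℝ ∂volume, t ≠ Real.pi := by
      rw [ae_iff]; simp
    filter_upwards [h3] with t ht hm
    rw [Set.uIoc_of_le hab] at hm
    have hs : 0 < Real.sin t := Real.sin_pos_of_pos_of_lt_pi (by linarith [hm.1])
      (lt_of_le_of_ne (hm.2.trans hb) ht)
    rw [abs_of_pos (by positivity), Real.log_mul (by norm_num) hs.ne']
  rw [h1, intervalIntegral.integral_add (by simp) (by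
    exact intervalIntegrable_log_sin), intervalIntegral.integral_const, smul_eq_mul]

lemma HH_pi_half : HH (Real.pi / 2) = 0 := by
  have h := Real.pi_pos
  unfold HH
  rw [log_two_sin_integral _ _ le_rfl (by linarith) (by positivity),
    integral_log_sin_zero_pi_div_two]
  ring

lemma HH_pi : HH Real.pi = 0 := by
  have h := Real.pi_pos
  unfold HH
  rw [log_two_sin_integral _ _ le_rfl le_rfl (by positivity), integral_log_sin_zero_pi]
  ring

lemma HH_refl (x : ℝ) : HH (Real.pi - x) = - HH x := by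
  have h1 : ∫ t in (Real.pi - x)..Real.pi, Real.log |2 * Real.sin t| =
      ∫ t in (0 : ℝ)..x, Real.log |2 * Real.sin t| := by
    have := intervalIntegral.integral_comp_sub_left (a := 0) (b := x)
      (fun t => Real.log |2 * Real.sin t|) Real.pi
    rw [sub_zero] at this
    rw [← this]
    simp only [Real.sin_pi_sub]
  have h2 := intervalIntegral.integral_add_adjacent_intervals (integrable_h 0 (Real.pi - x))
    (integrable_h (Real.pi - x) Real.pi)
  rw [h1] at h2
  have h3 := HH_pi
  unfold HH at *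
  linarith

/-- duplication formula at `π / 6` -/
lemma HH_sixth : HH (Real.pi / 6) = 3 / 2 * HH (Real.pi / 3) := by
  have hpi := Real.pi_pos
  have h1 : HH (Real.pi / 3) = 2 * ∫ t in (0 : ℝ)..(Real.pi / 6), Real.log |2 * Real.sin (2 * t)| := by
    rw [intervalIntegral.integral_comp_mul_left (fun t => Real.log |2 * Real.sin t|)
      (by norm_num : (2 : ℝ) ≠ 0), smul_eq_mul]
    unfold HH
    rw [mul_zero, show 2 * (Real.pi / 6) = Real.pi / 3 by ring]
    ring
  have h2 : ∫ t in (0 : ℝ)..(Real.pi / 6), Real.log |2 * Real.sin (2 * t)| =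
      ∫ t in (0 : ℝ)..(Real.pi / 6), (Real.log |2 * Real.sin t| +
        Real.log |2 * Real.sin (t + Real.pi / 2)|) := by
    apply intervalIntegral.integral_congr_ae
    refine Eventually.of_forall fun t hm => ?_
    rw [Set.uIoc_of_le (by positivity)] at hm
    have hs : 0 < Real.sin t := Real.sin_pos_of_pos_of_lt_pi hm.1 (by linarith [hm.2])
    have hc : 0 < Real.cos t := Real.cos_pos_of_mem_Ioo ⟨by linarith [hm.1], by linarith [hm.2]⟩
    rw [Real.sin_add_pi_div_two, ← Real.log_mul (by positivity) (by positivity), ← abs_mul,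
      Real.sin_two_mul]
    congr 2; ring
  have h3 : ∫ t in (0 : ℝ)..(Real.pi / 6), Real.log |2 * Real.sin (t + Real.pi / 2)| =
      HH (Real.pi / 6 + Real.pi / 2) - HH (Real.pi / 2) := by
    rw [intervalIntegral.integral_comp_add_right (fun t => Real.log |2 * Real.sin t|)]
    unfold HH
    rw [zero_add, intervalIntegral.integral_interval_sub_left (integrable_h _ _)
      (integrable_h _ _)]
  have hint : IntervalIntegrable (fun t => Real.log |2 * Real.sin (t + Real.pi / 2)|) volume 0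
      (Real.pi / 6) := by
    have := (integrable_h (0 + Real.pi / 2) (Real.pi / 6 + Real.pi / 2)).comp_add_right
      (Real.pi / 2)
    simpa using this
  rw [h2, intervalIntegral.integral_add (integrable_h _ _) hint, h3, HH_pi_half] at h1
  have h4 : HH (Real.pi / 6 + Real.pi / 2) = - HH (Real.pi / 3) := by
    rw [← HH_refl]; congr 1; ring
  rw [h4] at h1
  have h5 : HH (Real.pi / 6) = ∫ t in (0 : ℝ)..(Real.pi / 6), Real.log |2 * Real.sin t| := rfl
  rw [← h5] at h1
  linarith

/-- the quadratic form of the angles of a triangle -/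
lemma cot_form {A B C d1 d2 d3 : ℝ} (hA : 0 < A) (hB : 0 < B) (hC : 0 < C)
    (h : A + B + C = Real.pi) (hd : d1 + d2 + d3 = 0) :
    0 ≤ d1 ^ 2 * (Real.cos A / Real.sin A) + d2 ^ 2 * (Real.cos B / Real.sin B) +
      d3 ^ 2 * (Real.cos C / Real.sin C) := by
  have sA : 0 < Real.sin A := Real.sin_pos_of_pos_of_lt_pi hA (by linarith)
  have sB : 0 < Real.sin B := Real.sin_pos_of_pos_of_lt_pi hB (by linarith)
  have sC : 0 < Real.sin C := Real.sin_pos_of_pos_of_lt_pi hC (by linarith)
  have e1 : C = Real.pi - (A + B) := by linarith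
  have e2 : Real.sin C = Real.sin A * Real.cos B + Real.cos A * Real.sin B := by
    rw [e1, Real.sin_pi_sub, Real.sin_add]
  have e3 : Real.cos C = Real.sin A * Real.sin B - Real.cos A * Real.cos B := by
    rw [e1, Real.cos_pi_sub, Real.cos_add]; ring
  have e4 : d3 = -(d1 + d2) := by linarith
  rw [e4, e3]
  rw [e2] at sC ⊢
  set a := Real.cos A / Real.sin A with ha
  set b := Real.cos B / Real.sin B with hb
  have ca : Real.cos A = a * Real.sin A := by rw [ha]; field_simp
  have cb : Real.cos B = b * Real.sin B := by rw [hb]; field_simp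
  rw [ca, cb] at sC ⊢
  have hab : 0 < a + b := by
    have : 0 < (a + b) * (Real.sin A * Real.sin B) := by nlinarith
    exact (pos_iff_pos_of_mul_pos this).2 (by positivity)
  have e5 : (Real.sin A * Real.sin B - a * Real.sin A * (b * Real.sin B)) /
      (Real.sin A * (b * Real.sin B) + a * Real.sin A * Real.sin B) = (1 - a * b) / (a + b) := by
    rw [div_eq_div_iff sC.ne' hab.ne']; ring
  rw [e5]
  have e6 : d1 ^ 2 * a + d2 ^ 2 * b + (-(d1 + d2)) ^ 2 * ((1 - a * b) / (a + b)) =
      ((d1 * a - d2 * b) ^ 2 + (d1 + d2) ^ 2) / (a + b) := by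
    field_simp
    ring
  rw [e6]
  positivity

/-- tangent inequality for the volume of ideal tetrahedra -/
lemma HH_tangent {a b c a0 b0 c0 : ℝ} (ha : 0 ≤ a) (hb : 0 ≤ b) (hc : 0 ≤ c)
    (h : a + b + c = Real.pi) (ha0 : 0 < a0) (hb0 : 0 < b0) (hc0 : 0 < c0)
    (h0 : a0 + b0 + c0 = Real.pi) :
    HH a0 + HH b0 + HH c0 + Real.log (2 * Real.sin a0) * (a - a0) +
      Real.log (2 * Real.sin b0) * (b - b0) + Real.log (2 * Real.sin c0) * (c - c0) ≤
      HH a + HH b + HH c := by
  set d1 := a - a0 with hd1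
  set d2 := b - b0 with hd2
  set d3 := c - c0 with hd3
  have hd : d1 + d2 + d3 = 0 := by rw [hd1, hd2, hd3]; linarith
  have pos : ∀ τ ∈ Set.Ico (0 : ℝ) 1, 0 < a0 + τ * d1 ∧ 0 < b0 + τ * d2 ∧ 0 < c0 + τ * d3 ∧
      (a0 + τ * d1) + (b0 + τ * d2) + (c0 + τ * d3) = Real.pi := by
    intro τ hτ
    have h1 : 0 < 1 - τ := by linarith [hτ.2]
    have h2 : 0 ≤ τ := hτ.1
    refine ⟨?_, ?_, ?_, ?_⟩
    · rw [hd1]; nlinarith [mul_pos h1 ha0, mul_nonneg h2 ha]
    · rw [hd2]; nlinarith [mul_pos h1 hb0, mul_nonneg h2 hb]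
    · rw [hd3]; nlinarith [mul_pos h1 hc0, mul_nonneg h2 hc]
    · linear_combination h0 + τ * hd
  have lin : ∀ x d τ : ℝ, HasDerivAt (fun τ : ℝ => x + τ * d) d τ := by
    intro x d τ
    simpa using ((hasDerivAt_id τ).mul_const d).const_add x
  have dphi : ∀ τ ∈ Set.Ico (0 : ℝ) 1, HasDerivAt
      (fun τ => HH (a0 + τ * d1) + HH (b0 + τ * d2) + HH (c0 + τ * d3))
      (Real.log (2 * Real.sin (a0 + τ * d1)) * d1 + Real.log (2 * Real.sin (b0 + τ * d2)) * d2 +
        Real.log (2 * Real.sin (c0 + τ * d3)) * d3) τ := by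
    intro τ hτ
    obtain ⟨p1, p2, p3, p4⟩ := pos τ hτ
    exact (((HH_deriv p1 (by linarith)).comp τ (lin a0 d1 τ)).add
      ((HH_deriv p2 (by linarith)).comp τ (lin b0 d2 τ))).add
      ((HH_deriv p3 (by linarith)).comp τ (lin c0 d3 τ))
  have dlog : ∀ x d τ : ℝ, 0 < x + τ * d → x + τ * d < Real.pi →
      HasDerivAt (fun τ => Real.log (2 * Real.sin (x + τ * d)) * d)
        (d ^ 2 * (Real.cos (x + τ * d) / Real.sin (x + τ * d))) τ := by
    intro x d τ h1 h2
    have hs : 0 < Real.sin (x + τ * d) := Real.sin_pos_of_pos_of_lt_pi h1 h2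
    have h3 := ((((Real.hasDerivAt_sin (x + τ * d)).comp τ (lin x d τ)).const_mul 2).log
      (by positivity)).mul_const d
    refine h3.congr_deriv ?_
    change 2 * (Real.cos (x + τ * d) * d) / (2 * Real.sin (x + τ * d)) * d = _
    field_simp
  have dpsi : ∀ τ ∈ Set.Ico (0 : ℝ) 1, HasDerivAt
      (fun τ => Real.log (2 * Real.sin (a0 + τ * d1)) * d1 +
        Real.log (2 * Real.sin (b0 + τ * d2)) * d2 + Real.log (2 * Real.sin (c0 + τ * d3)) * d3)
      (d1 ^ 2 * (Real.cos (a0 + τ * d1) / Real.sin (a0 + τ * d1)) +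
        d2 ^ 2 * (Real.cos (b0 + τ * d2) / Real.sin (b0 + τ * d2)) +
        d3 ^ 2 * (Real.cos (c0 + τ * d3) / Real.sin (c0 + τ * d3))) τ := by
    intro τ hτ
    obtain ⟨p1, p2, p3, p4⟩ := pos τ hτ
    exact ((dlog a0 d1 τ p1 (by linarith)).add (dlog b0 d2 τ p2 (by linarith))).add
      (dlog c0 d3 τ p3 (by linarith))
  obtain ⟨ξ, hξ, hslope⟩ := exists_hasDerivAt_eq_slope
    (fun τ => HH (a0 + τ * d1) + HH (b0 + τ * d2) + HH (c0 + τ * d3))
    (fun τ => Real.log (2 * Real.sin (a0 + τ * d1)) * d1 +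
      Real.log (2 * Real.sin (b0 + τ * d2)) * d2 + Real.log (2 * Real.sin (c0 + τ * d3)) * d3)
    (zero_lt_one' ℝ) (by
      apply Continuous.continuousOn
      have := HH_cont
      fun_prop) (fun x hx => dphi x ⟨hx.1.le, hx.2⟩)
  have hmono : MonotoneOn (fun τ => Real.log (2 * Real.sin (a0 + τ * d1)) * d1 +
        Real.log (2 * Real.sin (b0 + τ * d2)) * d2 + Real.log (2 * Real.sin (c0 + τ * d3)) * d3)
        (Set.Icc 0 ξ) := by
    apply monotoneOn_of_deriv_nonneg (convex_Icc 0 ξ)
    · intro x hx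
      exact (dpsi x ⟨hx.1, lt_of_le_of_lt hx.2 hξ.2⟩).continuousAt.continuousWithinAt
    · intro x hx
      rw [interior_Icc] at hx
      exact (dpsi x ⟨hx.1.le, hx.2.trans hξ.2⟩).differentiableAt.differentiableWithinAt
    · intro x hx
      rw [interior_Icc] at hx
      rw [(dpsi x ⟨hx.1.le, hx.2.trans hξ.2⟩).deriv]
      obtain ⟨p1, p2, p3, p4⟩ := pos x ⟨hx.1.le, hx.2.trans hξ.2⟩
      exact cot_form p1 p2 p3 p4 hd
  have h2 := hmono (Set.left_mem_Icc.2 hξ.1.le) (Set.right_mem_Icc.2 hξ.1.le) hξ.1.le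
  simp only [zero_mul, add_zero, one_mul, sub_zero, div_one] at h2 hslope
  have e1 : a0 + d1 = a := by rw [hd1]; ring
  have e2 : b0 + d2 = b := by rw [hd2]; ring
  have e3 : c0 + d3 = c := by rw [hd3]; ring
  rw [e1, e2, e3] at hslope
  linarith

/-- the maximal volume -/
lemma HH_regular {a b c : ℝ} (ha : 0 ≤ a) (hb : 0 ≤ b) (hc : 0 ≤ c) (h : a + b + c = Real.pi) :
    3 * HH (Real.pi / 3) ≤ HH a + HH b + HH c := by
  have hpi := Real.pi_pos
  have := HH_tangent ha hb hc h (a0 := Real.pi / 3) (b0 := Real.pi / 3) (c0 := Real.pi / 3)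
    (by positivity) (by positivity) (by positivity) (by ring)
  have e : Real.log (2 * Real.sin (Real.pi / 3)) * (a - Real.pi / 3) +
      Real.log (2 * Real.sin (Real.pi / 3)) * (b - Real.pi / 3) +
      Real.log (2 * Real.sin (Real.pi / 3)) * (c - Real.pi / 3) = 0 := by
    linear_combination Real.log (2 * Real.sin (Real.pi / 3)) * h
  linarith

/-- the supporting inequality at the tetrahedron with angles 30, 60, 90 degrees -/
lemma HH_half {a b c : ℝ} (ha : 0 ≤ a) (hb : 0 ≤ b) (hc : 0 ≤ c) (h : a + b + c = Real.pi) :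
    5 / 2 * HH (Real.pi / 3) + Real.log (Real.sqrt 3) * (b - Real.pi / 3) +
      Real.log 2 * (c - Real.pi / 2) ≤ HH a + HH b + HH c := by
  have hpi := Real.pi_pos
  have := HH_tangent ha hb hc h (a0 := Real.pi / 6) (b0 := Real.pi / 3) (c0 := Real.pi / 2)
    (by positivity) (by positivity) (by positivity) (by ring)
  rw [Real.sin_pi_div_six, Real.sin_pi_div_three, Real.sin_pi_div_two, HH_pi_half, HH_sixth,
    mul_one, mul_one_div_cancel (by norm_num : (2 : ℝ) ≠ 0), Real.log_one,
    mul_div_cancel₀ (√3) (by norm_num : (2 : ℝ) ≠ 0)] at this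
  linarith

end Pool.Agent.Helper11.Kash
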